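import Pool.Agent.X179.SD.Seq

/-!
# Sign choices in the plane: few prefixes
-/

namespace Pool.Agent.X179.SD

open Filter Topology

variable [Dm]

/-- partial sums of the first coordinates -/
noncomputable def SX (e : ℕ → ℤˣ) (n : ℕ) : ℝ := ∑ i ∈ Finset.range n, ((e i : ℤ) : ℝ) * xs i
/-- partial sums of the second coordinates -/
noncomputable def SY (e : ℕ → ℤˣ) (n : ℕ) : ℝ := ∑ i ∈ Finset.range n, ((e i : ℤ) : ℝ) * ys i

theorem SX_succ (e : ℕ → ℤˣ) (n : ℕ) : SX e (n + 1) = SX e n + ((e n : ℤ) : ℝ) * xs n :=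
  Finset.sum_range_succ _ _
theorem SY_succ (e : ℕ → ℤˣ) (n : ℕ) : SY e (n + 1) = SY e n + ((e n : ℤ) : ℝ) * ys n :=
  Finset.sum_range_succ _ _

theorem SY_block (e : ℕ → ℤˣ) {k i : ℕ} (hi : i ≤ N k) :
    SY e (P k + i) - SY e (P k) = (1 / 2) ^ (R k) * (SX e (P k + i) - SX e (P k)) := by
  induction i with
  | zero => simp
  | succ i ih =>
    have ih' := ih (by omega)
    have hi' : i < N k := by omega
    rw [← add_assoc, SY_succ, SX_succ, ys_block hi', xs_block hi', pow_add]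
    linear_combination ih'

theorem SY_stretch (e : ℕ → ℤˣ) {k i : ℕ} (hi : i ≤ I k) :
    |SY e (M k + i) - SY e (M k)| ≤ (1 / 2) ^ (R k + k) * (2 - 2 * (1 / 2) ^ i) := by
  induction i with
  | zero => simp
  | succ i ih =>
    have ih' := ih (by omega)
    rw [← add_assoc, SY_succ, ys_stretch (by omega)]
    have e1 : |((e (M k + i) : ℤ) : ℝ) * (1 / 2) ^ (R k + k + i)| ≤
        (1 / 2) ^ (R k + k) * (1 / 2) ^ i := by
      rw [abs_mul, ← pow_add, abs_of_pos (by positivity : (0 : ℝ) < (1 / 2) ^ (R k + k + i))]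
      rcases Int.units_eq_one_or (e (M k + i)) with h | h <;> simp [h]
    have e2 := abs_add_le (SY e (M k + i) - SY e (M k))
      (((e (M k + i) : ℤ) : ℝ) * (1 / 2) ^ (R k + k + i))
    rw [show SY e (M k + i) + ((e (M k + i) : ℤ) : ℝ) * (1 / 2) ^ (R k + k + i) - SY e (M k) =
      SY e (M k + i) - SY e (M k) + ((e (M k + i) : ℤ) : ℝ) * (1 / 2) ^ (R k + k + i) by ring]
    rw [pow_succ]
    linarith

theorem S_extra (e : ℕ → ℤˣ) {k i : ℕ} (hi : i ≤ Dm.D) :
    SX e (Q k + i) = SX e (Q k) ∧ SY e (Q k + i) = SY e (Q k) := by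
  induction i with
  | zero => simp
  | succ i ih =>
    have ih' := ih (by omega)
    rw [← add_assoc, SX_succ, SY_succ, xs_extra (by omega), ys_extra (by omega)]
    simpa only [mul_zero, add_zero] using ih'

/-- the sequences with bounded errors of the first coordinates from stage `j` on -/
def F (L1 L2 : ℝ) (j : ℕ) : Set (ℕ → ℤˣ) :=
  {e | Tendsto (SX e) atTop (𝓝 L1) ∧ Tendsto (SY e) atTop (𝓝 L2) ∧
    ∀ n ≥ P j, |L1 - SX e n| ≤ 1}

theorem mem_F {L1 L2 : ℝ} {e : ℕ → ℤˣ} (h1 : Tendsto (SX e) atTop (𝓝 L1))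
    (h2 : Tendsto (SY e) atTop (𝓝 L2)) : ∃ j, e ∈ F L1 L2 j := by
  have h := (Metric.tendsto_atTop.1 h1) 1 one_pos
  obtain ⟨j, hj⟩ := h
  refine ⟨j, h1, h2, fun n hn => ?_⟩
  have := hj n ((P_ge j).trans hn)
  rw [dist_comm, Real.dist_eq] at this
  exact this.le

theorem step_bound {L1 L2 : ℝ} {e : ℕ → ℤˣ} {j k : ℕ} (he : e ∈ F L1 L2 j) (hk : j ≤ k) :
    |SY e (P (k + 1)) - SY e (P k)| ≤ 4 * (1 / 2) ^ (R k) := by
  have h1 := SY_block e (le_refl (N k))
  change SY e (M k) - _ = _ * (SX e (M k) - _) at h1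
  have h2 := SY_stretch e (le_refl (I k))
  change |SY e (Q k) - SY e (M k)| ≤ _ at h2
  have h3 : SY e (P (k + 1)) = SY e (Q k) := (S_extra e (le_refl Dm.D)).2
  have hP : P j ≤ P k := P_strictMono.monotone hk
  have a := he.2.2 (P k) hP
  have b := he.2.2 (M k) (hP.trans (M_ge k))
  have c : |SX e (M k) - SX e (P k)| ≤ 2 := by
    rw [abs_le] at *
    constructor <;> linarith [a.1, a.2, b.1, b.2]
  have d : |SY e (M k) - SY e (P k)| ≤ 2 * (1 / 2) ^ (R k) := by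
    rw [h1, abs_mul, abs_of_pos (by positivity : (0 : ℝ) < (1 / 2) ^ (R k))]
    have : (0 : ℝ) < (1 / 2) ^ (R k) := by positivity
    nlinarith
  have f : (1 / 2 : ℝ) ^ (R k + k) * (2 - 2 * (1 / 2) ^ (I k)) ≤ 2 * (1 / 2) ^ (R k) := by
    have g1 : (1 / 2 : ℝ) ^ (R k + k) ≤ (1 / 2) ^ (R k) := half_pow_anti (by omega)
    have g2 : (0 : ℝ) < (1 / 2) ^ (I k) := by positivity
    have g3 : (0 : ℝ) < (1 / 2) ^ (R k + k) := by positivity
    nlinarith
  rw [h3, show SY e (Q k) - SY e (P k) = (SY e (Q k) - SY e (M k)) + (SY e (M k) - SY e (P k)) by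
    ring]
  refine (abs_add_le _ _).trans ?_
  linarith

theorem R_half (k : ℕ) : (1 / 2 : ℝ) ^ (R (k + 1)) ≤ (1 / 2) ^ (R k) / 2 := by
  have h : R k + 1 ≤ R (k + 1) := by rw [R_succ]; have := I_pos k; omega
  refine (half_pow_anti h).trans_eq ?_
  rw [pow_succ]; ring

theorem Y_bound {L1 L2 : ℝ} {e : ℕ → ℤˣ} {j k : ℕ} (he : e ∈ F L1 L2 j) (hk : j ≤ k) :
    |L2 - SY e (P k)| ≤ 8 * (1 / 2) ^ (R k) := by
  have key : ∀ i, |SY e (P (k + i)) - SY e (P k)| ≤
      8 * (1 / 2) ^ (R k) - 8 * (1 / 2) ^ (R (k + i)) := by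
    intro i
    induction i with
    | zero => simp
    | succ i ih =>
      have a := step_bound he (by omega : j ≤ k + i)
      have b := R_half (k + i)
      rw [← add_assoc, show SY e (P (k + i + 1)) - SY e (P k) =
        (SY e (P (k + i + 1)) - SY e (P (k + i))) + (SY e (P (k + i)) - SY e (P k)) by ring]
      refine (abs_add_le _ _).trans ?_
      linarith
  have lim : Tendsto (fun i => |SY e (P (k + i)) - SY e (P k)|) atTop (𝓝 |L2 - SY e (P k)|) := by
    have h1 : Tendsto (fun i => P (k + i)) atTop atTop :=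
      P_strictMono.tendsto_atTop.comp
        (tendsto_atTop_mono (fun j => (by omega : j ≤ k + j)) tendsto_id)
    exact ((he.2.1.comp h1).sub_const _).abs
  refine le_of_tendsto' lim fun i => (key i).trans ?_
  have : (0 : ℝ) < (1 / 2) ^ (R (k + i)) := by positivity
  linarith

/-- the number with the binary digits of the signs -/
def B (e : ℕ → ℤˣ) (m : ℕ) : ℕ → ℕ
  | 0 => 0
  | i + 1 => 2 * B e m i + (if e (m + i) = 1 then 1 else 0)

omit [Dm] in
theorem B_inj (e e' : ℕ → ℤˣ) (m i : ℕ) (h : B e m i = B e' m i) :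
    ∀ j < i, e (m + j) = e' (m + j) := by
  induction i with
  | zero => intro j hj; omega
  | succ i ih =>
    unfold B at h
    have h1 : B e m i = B e' m i ∧ ((e (m + i) = 1) ↔ (e' (m + i) = 1)) := by
      split_ifs at h with a b b
      · exact ⟨by omega, by simp [a, b]⟩
      · omega
      · omega
      · exact ⟨by omega, by simp [a, b]⟩
    intro j hj
    rcases Nat.lt_succ_iff_lt_or_eq.1 hj with h2 | h2
    · exact ih h1.1 j h2
    · subst h2
      rcases Int.units_eq_one_or (e (m + j)) with a | a <;>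
        rcases Int.units_eq_one_or (e' (m + j)) with b | b
      · rw [a, b]
      · have := h1.2.1 a; rw [b] at this; exact absurd this (by decide)
      · have := h1.2.2 b; rw [a] at this; exact absurd this (by decide)
      · rw [a, b]

theorem B_sum (e : ℕ → ℤˣ) {k i : ℕ} (hi : i ≤ I k) :
    (2 : ℝ) ^ i * (SY e (M k + i) - SY e (M k)) =
      (1 / 2) ^ (R k + k) * (4 * (B e (M k) i : ℝ) - 2 * 2 ^ i + 2) := by
  induction i with
  | zero => simp [B]
  | succ i ih =>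
    have ih' := ih (by omega)
    rw [← add_assoc, SY_succ, ys_stretch (by omega), pow_add (1 / 2 : ℝ) (R k + k) i]
    have h2 : (2 : ℝ) ^ i * (1 / 2) ^ i = 1 := by rw [← mul_pow]; norm_num
    have h3 : (((B e (M k) (i + 1) : ℕ)) : ℝ) =
        2 * (B e (M k) i : ℝ) + (((e (M k + i) : ℤ) : ℝ) + 1) / 2 := by
      rw [B]
      rcases Int.units_eq_one_or (e (M k + i)) with a | a
      · rw [a]; simp
      · rw [a, if_neg (by decide)]; simp
    rw [h3, pow_succ]
    linear_combination 2 * ih' + 2 * ((e (M k + i) : ℤ) : ℝ) * (1 / 2) ^ (R k + k) * h2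

theorem B_close {L1 L2 : ℝ} {e e' : ℕ → ℤˣ} {j k : ℕ} (he : e ∈ F L1 L2 j) (he' : e' ∈ F L1 L2 j)
    (hk : j ≤ k) (h : ∀ i < M k, e i = e' i) :
    |(B e (M k) (I k) : ℤ) - B e' (M k) (I k)| ≤ 2 ^ (k + 2) := by
  have a := Y_bound he (by omega : j ≤ k + 1)
  have a' := Y_bound he' (by omega : j ≤ k + 1)
  have b : SY e (P (k + 1)) = SY e (M k + I k) := (S_extra e (le_refl Dm.D)).2
  have b' : SY e' (P (k + 1)) = SY e' (M k + I k) := (S_extra e' (le_refl Dm.D)).2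
  have c := B_sum e (le_refl (I k))
  have c' := B_sum e' (le_refl (I k))
  have d : SY e (M k) = SY e' (M k) :=
    Finset.sum_congr rfl fun i hi => by rw [h i (Finset.mem_range.1 hi)]
  have f : |SY e (M k + I k) - SY e' (M k + I k)| ≤ 16 * (1 / 2) ^ (R (k + 1)) := by
    rw [b] at a; rw [b'] at a'
    rw [abs_le] at *
    constructor <;> linarith [a.1, a.2, a'.1, a'.2]
  have g : (1 / 2 : ℝ) ^ (R k + k) * (4 * ((B e (M k) (I k) : ℝ) - B e' (M k) (I k))) =
      2 ^ (I k) * (SY e (M k + I k) - SY e' (M k + I k)) := by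
    rw [d] at c
    linear_combination c' - c
  have g' : (1 / 2 : ℝ) ^ (R k + k) * (4 * |(B e (M k) (I k) : ℝ) - B e' (M k) (I k)|) ≤
      2 ^ (I k) * (16 * (1 / 2) ^ (R (k + 1))) := by
    calc (1 / 2 : ℝ) ^ (R k + k) * (4 * |(B e (M k) (I k) : ℝ) - B e' (M k) (I k)|)
        = |(1 / 2 : ℝ) ^ (R k + k) * (4 * ((B e (M k) (I k) : ℝ) - B e' (M k) (I k)))| := by
          rw [abs_mul, abs_mul, abs_of_pos (by positivity : (0 : ℝ) < (1 / 2) ^ (R k + k)),
            abs_of_pos (by norm_num : (0 : ℝ) < 4)]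
      _ = 2 ^ (I k) * |SY e (M k + I k) - SY e' (M k + I k)| := by
          rw [g, abs_mul, abs_of_pos (by positivity : (0 : ℝ) < 2 ^ (I k))]
      _ ≤ _ := mul_le_mul_of_nonneg_left f (by positivity)
  have e1 : (2 : ℝ) ^ (I k) * (16 * (1 / 2) ^ (R (k + 1))) = 16 * (1 / 2) ^ (R k) := by
    rw [R_succ, pow_add]
    have h2 : (2 : ℝ) ^ (I k) * (1 / 2) ^ (I k) = 1 := by rw [← mul_pow]; norm_num
    linear_combination 16 * (1 / 2) ^ (R k) * h2
  have e2 : |(B e (M k) (I k) : ℝ) - B e' (M k) (I k)| ≤ 2 ^ (k + 2) := by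
    rw [e1, pow_add] at g'
    have r0 : (0 : ℝ) < (1 / 2) ^ (R k) := by positivity
    have h2 : (2 : ℝ) ^ k * (1 / 2) ^ k = 1 := by rw [← mul_pow]; norm_num
    have k0 : (0 : ℝ) < (1 / 2) ^ k := by positivity
    have g2 : (1 / 2 : ℝ) ^ k * |(B e (M k) (I k) : ℝ) - B e' (M k) (I k)| ≤ 4 := by
      have : (1 / 2 : ℝ) ^ (R k) * ((1 / 2 : ℝ) ^ k * |(B e (M k) (I k) : ℝ) - B e' (M k) (I k)|) ≤
        (1 / 2 : ℝ) ^ (R k) * 4 := by nlinarith
      exact le_of_mul_le_mul_left this r0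
    calc |(B e (M k) (I k) : ℝ) - B e' (M k) (I k)|
        = 2 ^ k * ((1 / 2 : ℝ) ^ k * |(B e (M k) (I k) : ℝ) - B e' (M k) (I k)|) := by
          rw [← mul_assoc, h2, one_mul]
      _ ≤ 2 ^ k * 4 := mul_le_mul_of_nonneg_left g2 (by positivity)
      _ = 2 ^ (k + 2) := by rw [pow_add]; norm_num
  exact_mod_cast e2

/-- the sets of the covering -/
theorem cover (L1 L2 : ℝ) {j k : ℕ} (hk : j ≤ k) :
    ∃ t : (Fin (M k) → ℤˣ) × Fin (2 ^ (k + 3) + 1) → Set (ℕ → ℤˣ),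
      F L1 L2 j ⊆ ⋃ c, t c ∧ ∀ c, ∀ e ∈ t c, ∀ e' ∈ t c, ∀ i < Q k, e i = e' i := by
  classical
  let ref : (Fin (M k) → ℤˣ) → (ℕ → ℤˣ) := fun u =>
    if h : ∃ e ∈ F L1 L2 j, ∀ i : Fin (M k), e i = u i then h.choose else fun _ => 1
  refine ⟨fun c => {e | (∀ i : Fin (M k), e i = c.1 i) ∧
    (B e (M k) (I k) : ℤ) = B (ref c.1) (M k) (I k) - 2 ^ (k + 2) + (c.2 : ℕ)}, ?_, ?_⟩
  · intro e he
    rw [Set.mem_iUnion]
    have hex : ∃ e' ∈ F L1 L2 j, ∀ i : Fin (M k), e' i = (fun i : Fin (M k) => e i) i :=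
      ⟨e, he, fun i => rfl⟩
    have href : ref (fun i : Fin (M k) => e i) = hex.choose := dif_pos hex
    have h1 := hex.choose_spec
    rw [← href] at h1
    have h2 := B_close he h1.1 hk (fun i hi => (h1.2 ⟨i, hi⟩).symm)
    rw [abs_le] at h2
    have h3 : (2 : ℤ) ^ (k + 3) = 2 * 2 ^ (k + 2) := by rw [pow_succ (2 : ℤ) (k + 2)]; ring
    set b : ℤ := (B e (M k) (I k) : ℤ) - B (ref (fun i : Fin (M k) => e i)) (M k) (I k) with hb
    have h4 : 0 ≤ b + 2 ^ (k + 2) := by linarith [h2.1]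
    have h5 : (b + 2 ^ (k + 2)).toNat < 2 ^ (k + 3) + 1 := by
      zify
      rw [Int.toNat_of_nonneg h4, h3]
      linarith [h2.2]
    refine ⟨(fun i : Fin (M k) => e i, ⟨(b + 2 ^ (k + 2)).toNat, h5⟩), fun i => rfl, ?_⟩
    simp only
    rw [Int.toNat_of_nonneg h4, hb]
    ring
  · rintro c e ⟨h1, h2⟩ e' ⟨h1', h2'⟩ i hi
    by_cases hM : i < M k
    · rw [h1 ⟨i, hM⟩, h1' ⟨i, hM⟩]
    · have h3 : B e (M k) (I k) = B e' (M k) (I k) := by
        have : (B e (M k) (I k) : ℤ) = B e' (M k) (I k) := by rw [h2, h2']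
        exact_mod_cast this
      have h4 := B_inj e e' (M k) (I k) h3 (i - M k) (by unfold Q at hi; omega)
      rwa [show M k + (i - M k) = i by omega] at h4

end Pool.Agent.X179.SD
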