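import Pool.Agent.X179.SD.Harm

/-!
# Sign choices in dimension at least two: the other coordinates
-/

namespace Pool.Agent.X179.SD

open Filter Topology

variable [Dm]

/-- the other coordinates -/
noncomputable def zs (n : ℕ) (i : Fin Dm.D) : ℝ :=
  if n = Q (K n) + i then 1 / ((K n : ℝ) + 1) else 0

theorem zs_abs (n : ℕ) (i : Fin Dm.D) : |zs n i| ≤ 1 / ((K n : ℝ) + 1) := by
  unfold zs
  split_ifs
  · rw [abs_of_pos (by positivity)]
  · rw [abs_zero]; positivity

open Classical in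
/-- the combined signs -/
noncomputable def comb (e : ℕ → ℤˣ) (s : Fin Dm.D → ℕ → ℤˣ) (n : ℕ) : ℤˣ :=
  if h : ∃ i : Fin Dm.D, n = Q (K n) + i then s h.choose (K n) else e n

theorem comb_xs (e : ℕ → ℤˣ) (s : Fin Dm.D → ℕ → ℤˣ) (n : ℕ) :
    ((comb e s n : ℤ) : ℝ) * xs n = ((e n : ℤ) : ℝ) * xs n ∧
    ((comb e s n : ℤ) : ℝ) * ys n = ((e n : ℤ) : ℝ) * ys n := by
  by_cases h : ∃ i : Fin Dm.D, n = Q (K n) + i
  · obtain ⟨i, hi⟩ := h
    rw [hi, xs_extra i.2, ys_extra i.2]; simp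
  · unfold comb; rw [dif_neg h]; exact ⟨rfl, rfl⟩

theorem comb_zs (e : ℕ → ℤˣ) (s : Fin Dm.D → ℕ → ℤˣ) (n : ℕ) (i : Fin Dm.D) :
    ((comb e s n : ℤ) : ℝ) * zs n i =
      if n = Q (K n) + i then ((s i (K n) : ℤ) : ℝ) * (1 / ((K n : ℝ) + 1)) else 0 := by
  by_cases h : n = Q (K n) + i
  · have h' : ∃ i : Fin Dm.D, n = Q (K n) + i := ⟨i, h⟩
    have h2 : h'.choose = i := by
      have h3 := h'.choose_spec
      apply Fin.ext
      omega
    unfold comb zs
    rw [dif_pos h', if_pos h, if_pos h, h2]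
  · unfold zs; rw [if_neg h, if_neg h, mul_zero]

theorem sum_stage (e : ℕ → ℤˣ) (s : Fin Dm.D → ℕ → ℤˣ) (i : Fin Dm.D) (k j : ℕ)
    (hj : P k + j ≤ P (k + 1)) :
    ∑ n ∈ Finset.range (P k + j), ((comb e s n : ℤ) : ℝ) * zs n i =
      ∑ n ∈ Finset.range (P k), ((comb e s n : ℤ) : ℝ) * zs n i +
        if Q k + i < P k + j then ((s i k : ℤ) : ℝ) * (1 / ((k : ℝ) + 1)) else 0 := by
  induction j with
  | zero =>
    rw [if_neg, add_zero, add_zero]
    have := M_ge k; unfold Q; omega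
  | succ j ih =>
    have ih' := ih (by omega)
    have hK : K (P k + j) = k := K_eq (by omega) (by omega)
    rw [← add_assoc, Finset.sum_range_succ, ih', comb_zs, hK, add_assoc]
    congr 1
    rcases lt_trichotomy (P k + j) (Q k + i) with h | h | h
    · rw [if_neg (by omega), if_neg (by omega), if_neg (by omega), add_zero]
    · rw [if_neg (by omega), if_pos h, if_pos (by omega), zero_add]
    · rw [if_pos (by omega), if_neg (by omega), if_pos (by omega), add_zero]

theorem sum_P (e : ℕ → ℤˣ) (s : Fin Dm.D → ℕ → ℤˣ) (i : Fin Dm.D) (k : ℕ) :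
    ∑ n ∈ Finset.range (P k), ((comb e s n : ℤ) : ℝ) * zs n i =
      ∑ m ∈ Finset.range k, ((s i m : ℤ) : ℝ) * (1 / ((m : ℝ) + 1)) := by
  induction k with
  | zero => simp [P_zero]
  | succ k ih =>
    have h := sum_stage e s i k (P (k + 1) - P k) (by have := P_lt_succ k; omega)
    rw [show P k + (P (k + 1) - P k) = P (k + 1) by have := P_lt_succ k; omega, ih,
      if_pos (by rw [P_succ']; have := i.2; omega)] at h
    rw [h, Finset.sum_range_succ]

theorem one_div_K_tendsto : Tendsto (fun n => 1 / ((K n : ℝ) + 1)) atTop (𝓝 0) :=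
  tendsto_one_div_add_atTop_nhds_zero_nat.comp K_tendsto

theorem attained_all (L1 L2 : ℝ) (L : Fin Dm.D → ℝ) : ∃ e : ℕ → ℤˣ,
    Tendsto (fun n => ∑ i ∈ Finset.range n, ((e i : ℤ) : ℝ) * xs i) atTop (𝓝 L1) ∧
    Tendsto (fun n => ∑ i ∈ Finset.range n, ((e i : ℤ) : ℝ) * ys i) atTop (𝓝 L2) ∧
    ∀ j, Tendsto (fun n => ∑ i ∈ Finset.range n, ((e i : ℤ) : ℝ) * zs i j) atTop (𝓝 (L j)) := by
  obtain ⟨e, h1, h2⟩ := attained L1 L2
  choose s hs using fun i : Fin Dm.D => harmonic_signs (L i)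
  refine ⟨comb e s, ?_, ?_, fun j => ?_⟩
  · simpa only [(comb_xs e s _).1] using h1
  · simpa only [(comb_xs e s _).2] using h2
  · have a : Tendsto (fun n => ∑ m ∈ Finset.range (K n), ((s j m : ℤ) : ℝ) * (1 / ((m : ℝ) + 1)))
        atTop (𝓝 (L j)) := (hs j).comp K_tendsto
    have b : Tendsto (fun n => ∑ i ∈ Finset.range n, ((comb e s i : ℤ) : ℝ) * zs i j -
        ∑ m ∈ Finset.range (K n), ((s j m : ℤ) : ℝ) * (1 / ((m : ℝ) + 1))) atTop (𝓝 0) := by
      refine squeeze_zero_norm (fun n => ?_) one_div_K_tendsto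
      have c := K_spec n
      have d := K_lt n
      have f := sum_stage e s j (K n) (n - P (K n)) (by omega)
      rw [show P (K n) + (n - P (K n)) = n by omega, sum_P] at f
      rw [f, add_sub_cancel_left, Real.norm_eq_abs]
      split_ifs
      · rw [abs_mul, abs_unit, one_mul, abs_of_pos (by positivity)]
      · rw [abs_zero]; positivity
    have := a.add b
    rw [add_zero] at this
    refine this.congr fun n => ?_
    ring

end Pool.Agent.X179.SD
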