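import Pool.Agent.X179.SD.Seq

/-!
# Sign choices in the plane: every target is attained

The strategy: in a block reduce the error of the second coordinate, in a stretch reduce the
difference of this error and the slope of the next block times the error of the first coordinate.
-/

namespace Pool.Agent.X179.SD

open Filter Topology

/-- the sign of a real number -/
noncomputable def sgn (t : ℝ) : ℤˣ := if 0 ≤ t then 1 else -1

theorem abs_sub_sgn (t v : ℝ) : |t - ((sgn t : ℤ) : ℝ) * v| = |(|t| - v)| := by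
  unfold sgn
  split_ifs with h
  · simp [abs_of_nonneg h]
  · have h' : t < 0 := not_le.1 h
    rw [abs_of_neg h']
    simp only [Units.val_neg, Units.val_one, Int.cast_neg, Int.cast_one, neg_mul, one_mul,
      sub_neg_eq_add]
    rw [← abs_neg]; congr 1; ring

theorem abs_unit (e : ℤˣ) : |((e : ℤ) : ℝ)| = 1 := by
  rcases Int.units_eq_one_or e with h | h <;> simp [h]

variable [Dm]

/-- the errors of the two coordinates after `n` steps -/
noncomputable def Z (L1 L2 : ℝ) : ℕ → ℝ × ℝ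
  | 0 => (L1, L2)
  | n + 1 =>
    ((Z L1 L2 n).1 - ((sgn ((Z L1 L2 n).2 - th n * (Z L1 L2 n).1) : ℤ) : ℝ) * xs n,
      (Z L1 L2 n).2 - ((sgn ((Z L1 L2 n).2 - th n * (Z L1 L2 n).1) : ℤ) : ℝ) * ys n)

/-- the signs -/
noncomputable def ep (L1 L2 : ℝ) (n : ℕ) : ℤˣ :=
  sgn ((Z L1 L2 n).2 - th n * (Z L1 L2 n).1)

theorem Z_eq (L1 L2 : ℝ) (n : ℕ) :
    (Z L1 L2 n).1 = L1 - ∑ i ∈ Finset.range n, ((ep L1 L2 i : ℤ) : ℝ) * xs i ∧
    (Z L1 L2 n).2 = L2 - ∑ i ∈ Finset.range n, ((ep L1 L2 i : ℤ) : ℝ) * ys i := by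
  induction n with
  | zero => simp [Z]
  | succ n ih =>
    rw [Finset.sum_range_succ, Finset.sum_range_succ, ← sub_sub, ← sub_sub, ← ih.1, ← ih.2]
    exact ⟨rfl, rfl⟩

section
variable (L1 L2 : ℝ)

theorem X_succ (n : ℕ) : (Z L1 L2 (n + 1)).1 = (Z L1 L2 n).1 - ((ep L1 L2 n : ℤ) : ℝ) * xs n := rfl
theorem Y_succ (n : ℕ) : (Z L1 L2 (n + 1)).2 = (Z L1 L2 n).2 - ((ep L1 L2 n : ℤ) : ℝ) * ys n := rfl

theorem X_crude (n : ℕ) : |(Z L1 L2 n).1| ≤ |L1| + n := by
  induction n with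
  | zero => simp [Z]
  | succ n ih =>
    rw [X_succ]
    have h1 : |((ep L1 L2 n : ℤ) : ℝ) * xs n| ≤ 1 := by
      rw [abs_mul, abs_unit, one_mul, abs_of_nonneg (xs_nonneg n)]
      exact (xs_le n).trans (half_pow_le_one _)
    have h2 := abs_sub (Z L1 L2 n).1 (((ep L1 L2 n : ℤ) : ℝ) * xs n)
    push_cast
    linarith

theorem Y_crude (n : ℕ) : |(Z L1 L2 n).2| ≤ |L2| + n := by
  induction n with
  | zero => simp [Z]
  | succ n ih =>
    rw [Y_succ]
    have h1 : |((ep L1 L2 n : ℤ) : ℝ) * ys n| ≤ 1 := by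
      rw [abs_mul, abs_unit, one_mul, abs_of_nonneg (ys_nonneg n)]
      exact (ys_le n).trans (half_pow_le_one _)
    have h2 := abs_sub (Z L1 L2 n).2 (((ep L1 L2 n : ℤ) : ℝ) * ys n)
    push_cast
    linarith

theorem block_step {k i : ℕ} (hi : i < N k) :
    |(Z L1 L2 (P k + (i + 1))).2| = |(|(Z L1 L2 (P k + i)).2| - (1 / 2) ^ (R k + k))| := by
  rw [← add_assoc, Y_succ, ys_block hi, ← abs_sub_sgn]
  unfold ep
  rw [th_block hi, zero_mul, sub_zero]

theorem block_Y {k i : ℕ} (hi : i ≤ N k) :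
    |(Z L1 L2 (P k + i)).2| ≤
      max (|(Z L1 L2 (P k)).2| - i * (1 / 2) ^ (R k + k)) ((1 / 2) ^ (R k + k)) := by
  induction i with
  | zero => simp
  | succ i ih =>
    have ih' := ih (by omega)
    rw [block_step L1 L2 (by omega : i < N k)]
    set y : ℝ := (1 / 2) ^ (R k + k) with hy
    have y0 : 0 < y := by positivity
    have a0 := abs_nonneg (Z L1 L2 (P k + i)).2
    rcases le_total y |(Z L1 L2 (P k + i)).2| with h | h
    · rw [abs_of_nonneg (sub_nonneg.2 h)]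
      rcases le_max_iff.1 ih' with h' | h'
      · apply le_max_of_le_left; push_cast; linarith
      · apply le_max_of_le_right; linarith
    · rw [abs_of_nonpos (sub_nonpos.2 h)]
      apply le_max_of_le_right; linarith

theorem block_ratio {k i : ℕ} (hi : i ≤ N k) :
    (Z L1 L2 (P k + i)).2 - (Z L1 L2 (P k)).2 =
      (1 / 2) ^ (R k) * ((Z L1 L2 (P k + i)).1 - (Z L1 L2 (P k)).1) := by
  induction i with
  | zero => simp
  | succ i ih =>
    have ih' := ih (by omega)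
    have hi' : i < N k := by omega
    rw [← add_assoc, Y_succ, X_succ, ys_block hi', xs_block hi', pow_add]
    linear_combination ih'

theorem stretch_X {k i : ℕ} (hi : i ≤ I k) : (Z L1 L2 (M k + i)).1 = (Z L1 L2 (M k)).1 := by
  induction i with
  | zero => simp
  | succ i ih =>
    have ih' := ih (by omega)
    rw [← add_assoc, X_succ, xs_stretch (by omega), mul_zero, sub_zero, ih']

theorem extra_Z {k i : ℕ} (hi : i ≤ Dm.D) : Z L1 L2 (Q k + i) = Z L1 L2 (Q k) := by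
  induction i with
  | zero => simp
  | succ i ih =>
    have ih' := ih (by omega)
    rw [← ih', ← add_assoc]
    apply Prod.ext
    · rw [X_succ, xs_extra (by omega), mul_zero, sub_zero]
    · rw [Y_succ, ys_extra (by omega), mul_zero, sub_zero]

theorem Z_P_succ (k : ℕ) : Z L1 L2 (P (k + 1)) = Z L1 L2 (M k + I k) :=
  extra_Z L1 L2 (le_refl Dm.D)

theorem stretch_D {k i : ℕ} (hi : i ≤ I k)
    (h0 : |(Z L1 L2 (M k)).2 - (1 / 2) ^ (R (k + 1)) * (Z L1 L2 (M k)).1| ≤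
      2 * (1 / 2) ^ (R k + k)) :
    |(Z L1 L2 (M k + i)).2 - (1 / 2) ^ (R (k + 1)) * (Z L1 L2 (M k)).1| ≤
      2 * (1 / 2) ^ (R k + k + i) := by
  induction i with
  | zero => simpa using h0
  | succ i ih =>
    have ih' := ih (by omega)
    have hi' : i < I k := by omega
    have e1 : (Z L1 L2 (M k + (i + 1))).2 - (1 / 2) ^ (R (k + 1)) * (Z L1 L2 (M k)).1 =
        ((Z L1 L2 (M k + i)).2 - (1 / 2) ^ (R (k + 1)) * (Z L1 L2 (M k)).1) -
        ((sgn ((Z L1 L2 (M k + i)).2 - (1 / 2) ^ (R (k + 1)) * (Z L1 L2 (M k)).1) : ℤ) : ℝ) *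
          (1 / 2) ^ (R k + k + i) := by
      rw [← add_assoc, Y_succ, ys_stretch hi']
      unfold ep
      rw [th_stretch hi', stretch_X L1 L2 hi'.le]
      ring
    rw [e1, abs_sub_sgn]
    have e2 : (2 : ℝ) * (1 / 2) ^ (R k + k + (i + 1)) = (1 / 2) ^ (R k + k + i) := by
      rw [← add_assoc, pow_succ]; ring
    rw [e2, abs_le]
    have a0 := abs_nonneg ((Z L1 L2 (M k + i)).2 - (1 / 2) ^ (R (k + 1)) * (Z L1 L2 (M k)).1)
    constructor <;> linarith

/-- after the block of a late stage the error of the second coordinate is at most one step -/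
theorem after_block {k : ℕ} (hk : |L2| ≤ k + 1) :
    |(Z L1 L2 (M k)).2| ≤ (1 / 2) ^ (R k + k) := by
  have h1 := block_Y L1 L2 (le_refl (N k))
  have h2 := Y_crude L1 L2 (P k)
  have e1 : ((N k : ℕ) : ℝ) * (1 / 2) ^ (R k + k) = P k + k + 1 := by
    unfold N
    push_cast
    rw [one_div, inv_pow]
    field_simp
  have : |(Z L1 L2 (P k)).2| - (N k : ℕ) * (1 / 2) ^ (R k + k) ≤ (1 / 2) ^ (R k + k) := by
    rw [e1]
    have : (0 : ℝ) < (1 / 2) ^ (R k + k) := by positivity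
    linarith
  exact h1.trans (max_le this le_rfl)

theorem small_slope {k : ℕ} (hk : |L1| ≤ k + 1) :
    (1 / 2) ^ (R (k + 1)) * |(Z L1 L2 (M k)).1| ≤ (1 / 2) ^ (R k + k) := by
  have h1 := X_crude L1 L2 (M k)
  have h2 : |(Z L1 L2 (M k)).1| ≤ 2 ^ (M k + k) := by
    have h3 : (M k + k) + 1 ≤ 2 ^ (M k + k) := Nat.lt_two_pow_self
    have h4 : (((M k + k) + 1 : ℕ) : ℝ) ≤ ((2 ^ (M k + k) : ℕ) : ℝ) := by exact_mod_cast h3
    push_cast at h4
    linarith
  have h5 : M k + k + (R k + k) ≤ R (k + 1) := by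
    rw [R_succ]; unfold I; nlinarith [Nat.zero_le (M k), Nat.zero_le k, Nat.zero_le (k * M k)]
  calc (1 / 2) ^ (R (k + 1)) * |(Z L1 L2 (M k)).1|
      ≤ (1 / 2) ^ (M k + k + (R k + k)) * 2 ^ (M k + k) := by
        apply mul_le_mul (half_pow_anti h5) h2 (abs_nonneg _) (by positivity)
    _ = (1 / 2) ^ (R k + k) := by
        rw [pow_add (1 / 2 : ℝ) (M k + k), mul_right_comm, ← mul_pow]; norm_num

theorem after_stretch_all {k : ℕ} (h1 : |L1| ≤ k + 1) (h2 : |L2| ≤ k + 1) {i : ℕ} (hi : i ≤ I k) :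
    |(Z L1 L2 (M k + i)).2 - (1 / 2) ^ (R (k + 1)) * (Z L1 L2 (M k)).1| ≤
      2 * (1 / 2) ^ (R k + k + i) := by
  apply stretch_D L1 L2 hi
  have a := after_block L1 L2 h2
  have b := small_slope L1 L2 h1
  have c := abs_sub (Z L1 L2 (M k)).2 ((1 / 2) ^ (R (k + 1)) * (Z L1 L2 (M k)).1)
  rw [abs_mul, abs_of_pos (by positivity : (0 : ℝ) < (1 / 2) ^ (R (k + 1)))] at c
  linarith

theorem after_stretch {k : ℕ} (h1 : |L1| ≤ k + 1) (h2 : |L2| ≤ k + 1) :
    |(Z L1 L2 (P (k + 1))).2 - (1 / 2) ^ (R (k + 1)) * (Z L1 L2 (P (k + 1))).1| ≤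
      (1 / 2) ^ (R (k + 1)) * (2 * (1 / 2) ^ k) := by
  have h := after_stretch_all L1 L2 h1 h2 (le_refl (I k))
  rw [Z_P_succ, stretch_X L1 L2 le_rfl]
  refine h.trans_eq ?_
  rw [R_succ, show R k + k + I k = R k + I k + k by ring, pow_add (1 / 2 : ℝ) (R k + I k)]
  ring

/-- bound for the first error after a late block -/
theorem X_M {k : ℕ} (h1 : |L1| ≤ k + 1) (h2 : |L2| ≤ k + 1) :
    |(Z L1 L2 (M (k + 1))).1| ≤ 3 * (1 / 2) ^ k := by
  have a := after_stretch L1 L2 h1 h2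
  have b : |(Z L1 L2 (M (k + 1))).2| ≤ (1 / 2) ^ (R (k + 1) + (k + 1)) :=
    after_block L1 L2 (by push_cast; linarith)
  have c := block_ratio L1 L2 (le_refl (N (k + 1)))
  change (Z L1 L2 (M (k + 1))).2 - _ = _ * ((Z L1 L2 (M (k + 1))).1 - _) at c
  set r : ℝ := (1 / 2) ^ (R (k + 1)) with hr
  have r0 : 0 < r := by positivity
  rw [pow_add, ← hr] at b
  have d : r * (Z L1 L2 (M (k + 1))).1 = (Z L1 L2 (M (k + 1))).2 -
      ((Z L1 L2 (P (k + 1))).2 - r * (Z L1 L2 (P (k + 1))).1) := by linear_combination -c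
  have e : r * |(Z L1 L2 (M (k + 1))).1| ≤ r * (3 * (1 / 2) ^ k) := by
    rw [← abs_of_pos r0, ← abs_mul, abs_of_pos r0, d]
    refine (abs_sub _ _).trans ?_
    rw [pow_succ] at b
    have : (0 : ℝ) < r * (1 / 2) ^ k := by positivity
    nlinarith
  exact le_of_mul_le_mul_left e r0

/-- bound for the second error at the start of a late block -/
theorem Y_P {k : ℕ} (h1 : |L1| ≤ k + 1) (h2 : |L2| ≤ k + 1) :
    |(Z L1 L2 (P (k + 2))).2| ≤ (1 / 2) ^ (R (k + 2)) * (4 * (1 / 2) ^ k) ∧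
      |(Z L1 L2 (P (k + 2))).1| ≤ 3 * (1 / 2) ^ k := by
  have a := after_stretch L1 L2 (k := k + 1) (by push_cast; linarith) (by push_cast; linarith)
  have b := X_M L1 L2 h1 h2
  have c : (Z L1 L2 (P (k + 2))).1 = (Z L1 L2 (M (k + 1))).1 := by
    rw [Z_P_succ, stretch_X L1 L2 le_rfl]
  change |(Z L1 L2 (P (k + 2))).2 - (1 / 2) ^ (R (k + 2)) * (Z L1 L2 (P (k + 2))).1| ≤
      (1 / 2) ^ (R (k + 2)) * (2 * (1 / 2) ^ (k + 1)) at a
  set r : ℝ := (1 / 2) ^ (R (k + 2)) with hr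
  have r0 : 0 < r := by positivity
  refine ⟨?_, c ▸ b⟩
  have d : |(Z L1 L2 (P (k + 2))).2| ≤
      |(Z L1 L2 (P (k + 2))).2 - r * (Z L1 L2 (P (k + 2))).1| +
      r * |(Z L1 L2 (P (k + 2))).1| := by
    have := abs_add_le ((Z L1 L2 (P (k + 2))).2 - r * (Z L1 L2 (P (k + 2))).1)
      (r * (Z L1 L2 (P (k + 2))).1)
    rw [abs_mul, abs_of_pos r0, sub_add_cancel] at this
    exact this
  rw [c] at d a
  have e : r * |(Z L1 L2 (M (k + 1))).1| ≤ r * (3 * (1 / 2) ^ k) :=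
    mul_le_mul_of_nonneg_left b r0.le
  rw [pow_succ] at a
  rw [c] at *
  linarith

theorem late_bound {k : ℕ} (h1 : |L1| ≤ k + 1) (h2 : |L2| ≤ k + 1) {n : ℕ}
    (hn : K n = k + 2) :
    |(Z L1 L2 n).1| ≤ 11 * (1 / 2) ^ k ∧ |(Z L1 L2 n).2| ≤ 11 * (1 / 2) ^ k := by
  obtain ⟨p, q⟩ := Y_P L1 L2 h1 h2
  have stretch : ∀ i ≤ I (k + 2), |(Z L1 L2 (M (k + 2) + i)).1| ≤ 11 * (1 / 2) ^ k ∧
      |(Z L1 L2 (M (k + 2) + i)).2| ≤ 11 * (1 / 2) ^ k := by
    intro i hi
    have a := after_stretch_all L1 L2 (k := k + 2) (by push_cast; linarith)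
      (by push_cast; linarith) hi
    have b := X_M L1 L2 (k := k + 1) (by push_cast; linarith) (by push_cast; linarith)
    have h0 : (0 : ℝ) < (1 / 2) ^ k := by positivity
    have b' : |(Z L1 L2 (M (k + 2))).1| ≤ 3 * (1 / 2) ^ k :=
      b.trans (by rw [pow_succ]; nlinarith)
    rw [stretch_X L1 L2 hi]
    refine ⟨b'.trans (by linarith), ?_⟩
    set r : ℝ := (1 / 2) ^ (R (k + 2 + 1)) with hr
    have r0 : 0 < r := by positivity
    have r1 : r ≤ 1 := half_pow_le_one _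
    have d := abs_add_le ((Z L1 L2 (M (k + 2) + i)).2 - r * (Z L1 L2 (M (k + 2))).1)
      (r * (Z L1 L2 (M (k + 2))).1)
    rw [abs_mul, abs_of_pos r0, sub_add_cancel] at d
    have e : (1 / 2 : ℝ) ^ (R (k + 2) + (k + 2) + i) ≤ (1 / 2) ^ k := half_pow_anti (by omega)
    have f : r * |(Z L1 L2 (M (k + 2))).1| ≤ 1 * (3 * (1 / 2) ^ k) :=
      mul_le_mul r1 b' (abs_nonneg _) (by norm_num)
    linarith
  rcases cases_index n with ⟨j, i, hi, rfl⟩ | ⟨j, i, hi, rfl⟩ | ⟨j, i, hi, rfl⟩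
  · rw [K_block hi] at hn
    subst hn
    have a := block_Y L1 L2 hi.le
    have b := block_ratio L1 L2 hi.le
    set r : ℝ := (1 / 2) ^ (R (k + 2)) with hr
    have r0 : 0 < r := by positivity
    have r1 : r ≤ 1 := half_pow_le_one _
    have h0 : (0 : ℝ) < (1 / 2) ^ k := by positivity
    have a' : |(Z L1 L2 (P (k + 2) + i)).2| ≤ r * (4 * (1 / 2) ^ k) := by
      refine a.trans (max_le ?_ ?_)
      · have : (0 : ℝ) ≤ i * (1 / 2) ^ (R (k + 2) + (k + 2)) := by positivity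
        linarith
      · rw [pow_add, ← hr, pow_add]
        have : 0 < r * (1 / 2) ^ k := by positivity
        nlinarith
    have c : r * |(Z L1 L2 (P (k + 2) + i)).1| ≤ r * (11 * (1 / 2) ^ k) := by
      have d : r * (Z L1 L2 (P (k + 2) + i)).1 = (Z L1 L2 (P (k + 2) + i)).2 -
          (Z L1 L2 (P (k + 2))).2 + r * (Z L1 L2 (P (k + 2))).1 := by linear_combination -b
      rw [← abs_of_pos r0, ← abs_mul, abs_of_pos r0, d]
      refine (abs_add_le _ _).trans ?_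
      have e1 := abs_sub (Z L1 L2 (P (k + 2) + i)).2 (Z L1 L2 (P (k + 2))).2
      rw [abs_mul, abs_of_pos r0]
      have e2 : r * |(Z L1 L2 (P (k + 2))).1| ≤ r * (3 * (1 / 2) ^ k) :=
        mul_le_mul_of_nonneg_left q r0.le
      linarith
    refine ⟨le_of_mul_le_mul_left c r0, a'.trans ?_⟩
    nlinarith
  · rw [K_stretch hi] at hn
    subst hn
    exact stretch i hi.le
  · rw [K_extra hi] at hn
    subst hn
    rw [extra_Z L1 L2 hi.le]
    exact stretch _ le_rfl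

theorem tendsto_errors :
    Tendsto (fun n => (Z L1 L2 n).1) atTop (𝓝 0) ∧ Tendsto (fun n => (Z L1 L2 n).2) atTop (𝓝 0) := by
  obtain ⟨m, hm⟩ := exists_nat_ge (max |L1| |L2|)
  have h1 : |L1| ≤ m := (le_max_left _ _).trans hm
  have h2 : |L2| ≤ m := (le_max_right _ _).trans hm
  have key : ∀ᶠ n in atTop, |(Z L1 L2 n).1| ≤ 44 * (1 / 2) ^ (K n) ∧
      |(Z L1 L2 n).2| ≤ 44 * (1 / 2) ^ (K n) := by
    filter_upwards [K_tendsto.eventually_ge_atTop (m + 2)] with n hn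
    obtain ⟨k, hk⟩ : ∃ k, K n = k + 2 := ⟨K n - 2, by omega⟩
    have hk' : m ≤ k := by omega
    have hk'' : (m : ℝ) ≤ k := by exact_mod_cast hk'
    have := late_bound L1 L2 (k := k) (by linarith) (by linarith) hk
    rw [hk, pow_add]
    constructor
    · refine this.1.trans_eq ?_; norm_num; ring
    · refine this.2.trans_eq ?_; norm_num; ring
  have lim : Tendsto (fun n => (44 : ℝ) * (1 / 2) ^ (K n)) atTop (𝓝 0) := by
    have := (tendsto_pow_atTop_nhds_zero_of_lt_one (r := (1 / 2 : ℝ)) (by norm_num)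
      (by norm_num)).comp K_tendsto
    simpa using this.const_mul 44
  exact ⟨squeeze_zero_norm' (key.mono fun n h => by simpa using h.1) lim,
    squeeze_zero_norm' (key.mono fun n h => by simpa using h.2) lim⟩

end

/-- every target is attained -/
theorem attained (L1 L2 : ℝ) : ∃ e : ℕ → ℤˣ,
    Tendsto (fun n => ∑ i ∈ Finset.range n, ((e i : ℤ) : ℝ) * xs i) atTop (𝓝 L1) ∧
    Tendsto (fun n => ∑ i ∈ Finset.range n, ((e i : ℤ) : ℝ) * ys i) atTop (𝓝 L2) := by
  refine ⟨ep L1 L2, ?_, ?_⟩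
  · have h := (tendsto_errors L1 L2).1.const_sub L1
    rw [sub_zero] at h
    refine h.congr fun n => ?_
    rw [(Z_eq L1 L2 n).1]; ring
  · have h := (tendsto_errors L1 L2).2.const_sub L2
    rw [sub_zero] at h
    refine h.congr fun n => ?_
    rw [(Z_eq L1 L2 n).2]; ring

end Pool.Agent.X179.SD
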