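import Pool.Agent.X179.SD.Greedy

/-!
# Signs for the harmonic series
-/

namespace Pool.Agent.X179.SD

open Filter Topology

/-- the errors of the greedy choice for the harmonic series -/
noncomputable def H (L : ℝ) : ℕ → ℝ
  | 0 => L
  | n + 1 => H L n - ((sgn (H L n) : ℤ) : ℝ) * (1 / ((n : ℝ) + 1))

theorem H_abs (L : ℝ) (n : ℕ) : |H L (n + 1)| = |(|H L n| - 1 / ((n : ℝ) + 1))| :=
  abs_sub_sgn _ _

theorem H_eq (L : ℝ) (n : ℕ) :
    H L n = L - ∑ i ∈ Finset.range n, ((sgn (H L i) : ℤ) : ℝ) * (1 / ((i : ℝ) + 1)) := by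
  induction n with
  | zero => simp [H]
  | succ n ih => rw [Finset.sum_range_succ, ← sub_sub, ← ih]; rfl

theorem H_tendsto (L : ℝ) : Tendsto (H L) atTop (𝓝 0) := by
  rw [Metric.tendsto_atTop]
  intro ε hε
  obtain ⟨m, hm⟩ := exists_nat_one_div_lt (half_pos hε)
  have hstep : ∀ j ≥ m, 1 / ((j : ℝ) + 1) ≤ ε / 2 := by
    intro j hj
    refine le_trans ?_ hm.le
    apply one_div_le_one_div_of_le (by positivity)
    have : (m : ℝ) ≤ j := by exact_mod_cast hj
    linarith
  -- some late error is small
  have hex : ∃ j ≥ m, |H L j| ≤ ε / 2 := by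
    by_contra hcon
    push Not at hcon
    have hdec : ∀ j, |H L (m + j)| = |H L m| -
        ∑ i ∈ Finset.range j, 1 / (((m + i : ℕ) : ℝ) + 1) := by
      intro j
      induction j with
      | zero => simp
      | succ j ih =>
        rw [← add_assoc, H_abs, abs_of_nonneg, Finset.sum_range_succ, ih]
        · ring
        · have a := hcon (m + j) (by omega)
          have b := hstep (m + j) (by omega)
          linarith
    have hdiv : Tendsto (fun j => ∑ i ∈ Finset.range j, 1 / (((m + i : ℕ) : ℝ) + 1)) atTop atTop := by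
      have h0 := Real.tendsto_sum_range_one_div_nat_succ_atTop
      have h1 : Tendsto (fun j => ∑ i ∈ Finset.range (m + j), 1 / ((i : ℝ) + 1)) atTop atTop :=
        h0.comp (tendsto_atTop_mono (fun j => (by omega : j ≤ m + j)) tendsto_id)
      have h2 := tendsto_atTop_add_const_right atTop
        (-∑ i ∈ Finset.range m, 1 / ((i : ℝ) + 1)) h1
      refine h2.congr fun j => ?_
      rw [Finset.sum_range_add]
      ring
    obtain ⟨j, hj⟩ := (hdiv.eventually_ge_atTop (|H L m| + 1)).exists
    have := hdec j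
    have := abs_nonneg (H L (m + j))
    linarith
  obtain ⟨j, hj, hjs⟩ := hex
  refine ⟨j, fun n hn => ?_⟩
  have : |H L n| ≤ ε / 2 := by
    induction n, hn using Nat.le_induction with
    | base => exact hjs
    | succ n hn ih =>
      rw [H_abs, abs_le]
      have a := hstep n (by omega)
      have b := abs_nonneg (H L n)
      have c : (0 : ℝ) < 1 / ((n : ℝ) + 1) := by positivity
      constructor <;> linarith
  rw [Real.dist_eq, sub_zero]
  linarith

theorem harmonic_signs (L : ℝ) : ∃ s : ℕ → ℤˣ,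
    Tendsto (fun n => ∑ i ∈ Finset.range n, ((s i : ℤ) : ℝ) * (1 / ((i : ℝ) + 1))) atTop (𝓝 L) := by
  refine ⟨fun i => sgn (H L i), ?_⟩
  have h := (H_tendsto L).const_sub L
  rw [sub_zero] at h
  refine h.congr fun n => ?_
  rw [H_eq L n]; ring

end Pool.Agent.X179.SD
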