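import Mathlib

/-!
# Sign choices in the plane: the parameters and the sequence

Stage `k` consists of `N k` copies of the vector `(2⁻ᵏ, 2^(-(R k + k)))` followed by the vectors
`(0, 2^(-(R k + k + i)))`, `i < I k`, and by `D` indices reserved for the other coordinates.
-/

namespace Pool.Agent.X179.SD

/-- the number of the other coordinates -/
class Dm where
  /-- the number -/
  D : ℕ

variable [Dm]

/-- start of stage `k` and the exponent `R k` -/
def st : ℕ → ℕ × ℕ
  | 0 => (0, 0)
  | k + 1 =>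
    ((st k).1 + 2 ^ ((st k).2 + k) * ((st k).1 + k + 1) +
        (k + 1) * ((st k).1 + 2 ^ ((st k).2 + k) * ((st k).1 + k + 1) + k + 4) + Dm.D,
      (st k).2 + (k + 1) * ((st k).1 + 2 ^ ((st k).2 + k) * ((st k).1 + k + 1) + k + 4))

/-- start of stage `k` -/
def P (k : ℕ) : ℕ := (st k).1
/-- exponent of the slope of stage `k` -/
def R (k : ℕ) : ℕ := (st k).2
/-- length of the block of stage `k` -/
def N (k : ℕ) : ℕ := 2 ^ (R k + k) * (P k + k + 1)
/-- end of the block of stage `k` -/
def M (k : ℕ) : ℕ := P k + N k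
/-- length of the stretch of stage `k` -/
def I (k : ℕ) : ℕ := (k + 1) * (M k + k + 4)

theorem P_zero : P 0 = 0 := rfl
/-- end of the stretch of stage `k` -/
def Q (k : ℕ) : ℕ := M k + I k

theorem P_succ (k : ℕ) : P (k + 1) = M k + I k + Dm.D := rfl
theorem P_succ' (k : ℕ) : P (k + 1) = Q k + Dm.D := rfl
theorem R_succ (k : ℕ) : R (k + 1) = R k + I k := rfl

theorem I_pos (k : ℕ) : 1 ≤ I k := by unfold I; nlinarith [Nat.zero_le (M k), Nat.zero_le k]
theorem M_ge (k : ℕ) : P k ≤ M k := Nat.le_add_right _ _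
theorem P_lt_succ (k : ℕ) : P k < P (k + 1) := by
  rw [P_succ]; have := M_ge k; have := I_pos k; omega
theorem P_strictMono : StrictMono P := strictMono_nat_of_lt_succ P_lt_succ
theorem P_ge (k : ℕ) : k ≤ P k := P_strictMono.le_apply

/-- the stage of the index `n` -/
def K (n : ℕ) : ℕ := Nat.findGreatest (fun k => P k ≤ n) n

theorem K_spec (n : ℕ) : P (K n) ≤ n :=
  Nat.findGreatest_spec (P := fun k => P k ≤ n) (m := 0) (Nat.zero_le _) (by simp [P_zero])

theorem K_lt (n : ℕ) : n < P (K n + 1) := by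
  by_contra h
  push Not at h
  have h1 : K n + 1 ≤ n := (P_ge _).trans h
  have := Nat.le_findGreatest (P := fun k => P k ≤ n) h1 h
  have h2 : K n + 1 ≤ K n := this
  omega

theorem K_eq {n k : ℕ} (h1 : P k ≤ n) (h2 : n < P (k + 1)) : K n = k := by
  have a := K_spec n
  have b := K_lt n
  have c : k < K n + 1 := P_strictMono.lt_iff_lt.1 (h1.trans_lt b)
  have d : K n < k + 1 := P_strictMono.lt_iff_lt.1 (a.trans_lt h2)
  omega

/-- first coordinates -/
noncomputable def xs (n : ℕ) : ℝ := if n < M (K n) then (1 / 2) ^ (K n) else 0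
/-- second coordinates -/
noncomputable def ys (n : ℕ) : ℝ :=
  if n < M (K n) then (1 / 2) ^ (R (K n) + K n) else
    if n < Q (K n) then (1 / 2) ^ (R (K n) + K n + (n - M (K n))) else 0
/-- slope used by the strategy -/
noncomputable def th (n : ℕ) : ℝ := if n < M (K n) then 0 else (1 / 2) ^ (R (K n + 1))

theorem K_block {k i : ℕ} (hi : i < N k) : K (P k + i) = k := by
  apply K_eq (Nat.le_add_right _ _)
  rw [P_succ]; unfold M; omega

theorem K_stretch {k i : ℕ} (hi : i < I k) : K (M k + i) = k := by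
  apply K_eq ((M_ge k).trans (Nat.le_add_right _ _))
  rw [P_succ]; omega

theorem K_extra {k i : ℕ} (hi : i < Dm.D) : K (Q k + i) = k := by
  apply K_eq
  · have := M_ge k; unfold Q; omega
  · rw [P_succ']; omega

theorem xs_block {k i : ℕ} (hi : i < N k) : xs (P k + i) = (1 / 2) ^ k := by
  unfold xs; rw [K_block hi, if_pos]; unfold M; omega
theorem ys_block {k i : ℕ} (hi : i < N k) : ys (P k + i) = (1 / 2) ^ (R k + k) := by
  unfold ys; rw [K_block hi, if_pos]; unfold M; omega
theorem th_block {k i : ℕ} (hi : i < N k) : th (P k + i) = 0 := by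
  unfold th; rw [K_block hi, if_pos]; unfold M; omega
theorem xs_stretch {k i : ℕ} (hi : i < I k) : xs (M k + i) = 0 := by
  unfold xs; rw [K_stretch hi, if_neg]; omega
theorem ys_stretch {k i : ℕ} (hi : i < I k) : ys (M k + i) = (1 / 2) ^ (R k + k + i) := by
  unfold ys; rw [K_stretch hi, if_neg (by omega), if_pos (by unfold Q; omega)]; congr 1; omega
theorem th_stretch {k i : ℕ} (hi : i < I k) : th (M k + i) = (1 / 2) ^ (R (k + 1)) := by
  unfold th; rw [K_stretch hi, if_neg (by omega)]

theorem xs_extra {k i : ℕ} (hi : i < Dm.D) : xs (Q k + i) = 0 := by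
  unfold xs; rw [K_extra hi, if_neg (by unfold Q; omega)]
theorem ys_extra {k i : ℕ} (hi : i < Dm.D) : ys (Q k + i) = 0 := by
  unfold ys; rw [K_extra hi, if_neg (by unfold Q; omega), if_neg (by omega)]

theorem xs_nonneg (n : ℕ) : 0 ≤ xs n := by unfold xs; split_ifs <;> positivity
theorem ys_nonneg (n : ℕ) : 0 ≤ ys n := by unfold ys; split_ifs <;> positivity
theorem half_pow_le_one (m : ℕ) : ((1 : ℝ) / 2) ^ m ≤ 1 :=
  pow_le_one₀ (by norm_num) (by norm_num)
theorem half_pow_anti {m n : ℕ} (h : m ≤ n) : ((1 : ℝ) / 2) ^ n ≤ (1 / 2) ^ m :=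
  pow_le_pow_of_le_one (by norm_num) (by norm_num) h
theorem xs_le (n : ℕ) : xs n ≤ (1 / 2) ^ (K n) := by
  unfold xs; split_ifs
  · exact le_rfl
  · positivity
theorem ys_le (n : ℕ) : ys n ≤ (1 / 2) ^ (K n) := by
  unfold ys; split_ifs
  · exact half_pow_anti (by omega)
  · exact half_pow_anti (by omega)
  · positivity

theorem K_ge {n k : ℕ} (h : P k ≤ n) : k ≤ K n := by
  have b := K_lt n
  have c : k < K n + 1 := P_strictMono.lt_iff_lt.1 (h.trans_lt b)
  omega

theorem K_tendsto : Filter.Tendsto K Filter.atTop Filter.atTop := by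
  refine Filter.tendsto_atTop.2 fun k => ?_
  filter_upwards [Filter.eventually_ge_atTop (P k)] with n hn
  exact K_ge hn

/-- every index is in a block, in a stretch or one of the other indices -/
theorem cases_index (n : ℕ) :
    (∃ k i, i < N k ∧ n = P k + i) ∨ (∃ k i, i < I k ∧ n = M k + i) ∨
      ∃ k i, i < Dm.D ∧ n = Q k + i := by
  have a := K_spec n
  have b := K_lt n
  rw [P_succ'] at b
  by_cases h : n < M (K n)
  · left
    refine ⟨K n, n - P (K n), ?_, by omega⟩
    unfold M at h; omega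
  · by_cases h' : n < Q (K n)
    · right; left
      refine ⟨K n, n - M (K n), ?_, by omega⟩
      unfold Q at h'; omega
    · right; right
      exact ⟨K n, n - Q (K n), by omega, by omega⟩

end Pool.Agent.X179.SD
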